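import Pool.Agent.H12R3.VR.Stmts

/-! Task T2 (accumulation point in an uncountable set) of project H12-VR. -/

set_option autoImplicit false

namespace H65VR

open Set Filter Topology H12VR

theorem taskAcc : TaskAcc := by
  intro S hS
  by_contra h
  push Not at h
  apply hS
  have hd : DiscreteTopology S := discreteTopology_subtype_iff.2 (by
    intro y hy
    by_contra hne
    have hcl : y ∈ closure (S \ {y}) := by
      rw [mem_closure_iff_nhdsWithin_neBot, sdiff_eq, inter_comm, nhdsWithin_inter']
      exact ⟨hne⟩
    obtain ⟨u, hu, hlim⟩ := mem_closure_iff_seq_limit.1 hcl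
    exact h y hy u (fun n => ⟨(hu n).1, (hu n).2⟩) hlim)
  exact TopologicalSpace.separableSpace_iff_countable.1 inferInstance

end H65VR
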